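import Pool.Agent.N173.BG.Stm
import Pool.Agent.TH858.GP.Indep

/-!
MSB/IND (project of helper173): independent characters which are small on a large set are few.
By helper106.
-/

set_option autoImplicit false

namespace Pool.Agent.N106.BG

open Finset Pool.Agent.TH858 Pool.Agent.TH858.GP Pool.Agent.N173.BG

theorem nn_mul_le {N : ℕ} [NeZero N] (c : ZMod N) (a : ℕ) :
    CB.nn ((a : ZMod N) * c) ≤ a * CB.nn c := by
  have h1 := CB.nint_mul c (a : ℤ) (-round ((c.val : ℝ) / N))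
  have h2 : (((a : ℤ) : ZMod N)) * c = (a : ZMod N) * c := by push_cast; rfl
  rw [h2] at h1
  rw [← h1]
  have h3 : (((-round ((c.val : ℝ) / N) : ℤ)) : ℝ) = -((round ((c.val : ℝ) / N) : ℤ) : ℝ) := by
    push_cast; rfl
  rw [h3]
  set t : ℝ := (c.val : ℝ) / N + -((round ((c.val : ℝ) / N) : ℤ) : ℝ) with ht
  have h4 : CB.nn c = |t| := rfl
  rw [h4]
  unfold CB.nint
  have h5 := round_le (((a : ℤ) : ℝ) * t) 0
  rw [Int.cast_zero, sub_zero] at h5
  refine h5.trans ?_
  rw [abs_mul]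
  push_cast
  rw [abs_of_nonneg (Nat.cast_nonneg a : (0 : ℝ) ≤ a)]

theorem ψ_sum {N : ℕ} [NeZero N] {ι : Type*} (s : Finset ι) (f : ι → ZMod N) :
    ψ (∑ i ∈ s, f i) = ∏ i ∈ s, ψ (f i) := by
  classical
  induction s using Finset.induction_on with
  | empty => rw [Finset.sum_empty, Finset.prod_empty, ψ_zero]
  | insert a s ha ih => rw [Finset.sum_insert ha, Finset.prod_insert ha, ψ_add, ih]

theorem t_IND : S_IND := by
  classical
  intro N _ k H Λ S hH hind hS
  have hH0 : (0 : ℝ) < H := by exact_mod_cast hH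
  set F : (Fin k → Fin H) → ZMod N := fun m => ∑ i, ((m i : ℕ) : ZMod N) * Λ i with hF
  have hinj : Function.Injective F := by
    intro m m' hmm
    have h1 := hind (fun i => ((m i : ℕ) : ℤ) - ((m' i : ℕ) : ℤ)) (fun i => by
      have h2 := (m i).2
      have h3 := (m' i).2
      rw [abs_lt]
      constructor <;> omega) (by
      have h2 : ∑ i, ((((m i : ℕ) : ℤ) - ((m' i : ℕ) : ℤ) : ℤ) : ZMod N) * Λ i = F m - F m' := by
        simp only [hF]
        rw [← Finset.sum_sub_distrib]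
        refine Finset.sum_congr rfl fun i _ => ?_
        push_cast
        ring
      rw [h2, hmm, sub_self])
    funext i
    have h2 := congrFun h1 i
    apply Fin.ext
    have h3 : ((m i : ℕ) : ℤ) - ((m' i : ℕ) : ℤ) = 0 := h2
    omega
  set X0 : Finset (ZMod N) := univ.image F with hX0
  have hcard : (X0.card : ℝ) = (H : ℝ) ^ k := by
    rw [hX0, Finset.card_image_of_injective _ hinj, Finset.card_univ, Fintype.card_fun,
      Fintype.card_fin, Fintype.card_fin]
    push_cast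
    rfl
  have hwt : ∀ x ∈ S, ((H : ℝ) ^ 2 / 2) ^ k ≤ wt X0 x := by
    intro x hx
    have h1 : ∑ y ∈ X0, ψ (x * y) = ∏ i, ∑ a : Fin H, ψ (((a : ℕ) : ZMod N) * (Λ i * x)) := by
      rw [hX0, Finset.sum_image fun m _ m' _ h => hinj h, Finset.prod_univ_sum]
      rw [Fintype.piFinset_univ]
      refine Finset.sum_congr rfl fun m _ => ?_
      have h2 : x * F m = ∑ i, ((m i : ℕ) : ZMod N) * (Λ i * x) := by
        simp only [hF]
        rw [Finset.mul_sum]
        exact Finset.sum_congr rfl fun i _ => by ring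
      rw [h2]
      exact ψ_sum _ _
    have h3 : ∀ i, (H : ℝ) * (Real.sqrt 2 / 2) ≤ ‖∑ a : Fin H, ψ (((a : ℕ) : ZMod N) * (Λ i * x))‖ := by
      intro i
      refine le_trans ?_ (Complex.re_le_norm _)
      rw [Complex.re_sum]
      have h4 : ∀ a ∈ (univ : Finset (Fin H)), Real.sqrt 2 / 2 ≤
          (ψ (((a : ℕ) : ZMod N) * (Λ i * x))).re := by
        intro a _
        rw [re_ψ_nn, ← Real.cos_pi_div_four]
        have h5 : CB.nn (((a : ℕ) : ZMod N) * (Λ i * x)) ≤ 1 / 8 := by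
          refine (nn_mul_le _ _).trans ?_
          have h6 := hS x hx i
          have h7 : ((a : ℕ) : ℝ) ≤ H := by exact_mod_cast a.2.le
          calc ((a : ℕ) : ℝ) * CB.nn (Λ i * x) ≤ H * (1 / (8 * H)) :=
                mul_le_mul h7 h6 (CB.nint_nonneg _) hH0.le
            _ = 1 / 8 := by field_simp
        refine Real.cos_le_cos_of_nonneg_of_le_pi ?_ ?_ ?_
        · exact mul_nonneg (by positivity) (CB.nint_nonneg _)
        · linarith [Real.pi_pos]
        · nlinarith [Real.pi_pos, h5]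
      have h8 := Finset.card_nsmul_le_sum _ _ _ h4
      rw [Finset.card_univ, Fintype.card_fin, nsmul_eq_mul] at h8
      exact h8
    unfold wt
    rw [h1, norm_prod]
    have h9 : ((H : ℝ) * (Real.sqrt 2 / 2)) ^ k ≤
        ∏ i, ‖∑ a : Fin H, ψ (((a : ℕ) : ZMod N) * (Λ i * x))‖ := by
      have h10 : ((H : ℝ) * (Real.sqrt 2 / 2)) ^ k = ∏ _i : Fin k, (H : ℝ) * (Real.sqrt 2 / 2) := by
        rw [Finset.prod_const, Finset.card_univ, Fintype.card_fin]
      rw [h10]
      exact Finset.prod_le_prod (fun i _ => by positivity) fun i _ => h3 i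
    have h11 : ((H : ℝ) ^ 2 / 2) ^ k = (((H : ℝ) * (Real.sqrt 2 / 2)) ^ k) ^ 2 := by
      rw [← pow_mul, mul_comm k 2, pow_mul]
      congr 1
      rw [mul_pow, div_pow, Real.sq_sqrt (by norm_num)]
      ring
    rw [h11]
    exact pow_le_pow_left₀ (by positivity) h9 2
  have hsum : (S.card : ℝ) * ((H : ℝ) ^ 2 / 2) ^ k ≤ N * (H : ℝ) ^ k := by
    have h1 : (S.card : ℝ) * ((H : ℝ) ^ 2 / 2) ^ k ≤ ∑ x ∈ S, wt X0 x := by
      have h2 := Finset.card_nsmul_le_sum S (fun x => wt X0 x) _ hwt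
      rwa [nsmul_eq_mul] at h2
    have h3 : ∑ x ∈ S, wt X0 x ≤ ∑ x : ZMod N, wt X0 x :=
      Finset.sum_le_sum_of_subset_of_nonneg (Finset.subset_univ _) fun x _ _ => wt_nonneg _ _
    rw [sum_wt, hcard] at h3
    exact h1.trans h3
  have hHk : (0 : ℝ) < (H : ℝ) ^ k := by positivity
  have h2 : (S.card : ℝ) * ((H : ℝ) ^ 2 / 2) ^ k = ((S.card : ℝ) * ((H : ℝ) / 2) ^ k) * (H : ℝ) ^ k := by
    rw [mul_assoc, ← mul_pow]
    congr 2
    ring
  rw [h2] at hsum
  exact le_of_mul_le_mul_right hsum hHk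

end Pool.Agent.N106.BG
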