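import Pool.Agent.N245.BG.Stm

/-!
# BG/SUB (project BG of helper245): subexponential growth of the derivatives

The first two theorems are copies of theorems of `Pool.Agent.Y736.RN.I`.  By helper106.
-/

set_option autoImplicit false

namespace Pool.Agent.N106.BGSub

open Complex Filter Topology Set Metric MeasureTheory Pool.Agent.H713R2
open N62a1eb23
open Pool.Agent.H712R2 (P P_succ P_one P_zero fc continuous_P)
open Pool.Agent.Y736.HL (LL LL_nonneg LL_self LL_mul LL_le norm_deriv_iter)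
open Pool.Agent.N245.BG

theorem diff_it_y (d m : ℕ) (c : ℂ) : Differentiable ℂ ((fc d c)^[m]) :=
  Differentiable.iterate ((differentiable_id.pow d).add_const c) m

theorem LL_of_mult {c : ℂ} (hc : c ∈ multibrotSet 2) {N : ℕ} (hN : 1 ≤ N) {L : ℝ} (hL : 1 ≤ L)
    (h : ∀ i, LL c (N * i) (N * i + N) ≤ L ^ N) :
    ∃ C : ℝ, 0 < C ∧ ∀ m n, m ≤ n → LL c m n ≤ C * L ^ (n - m) := by
  have h1 : ∀ i k, LL c (N * i) (N * (i + k)) ≤ L ^ (N * k) := by
    intro i k
    induction k with
    | zero => simp [LL_self]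
    | succ k ih =>
      rw [← LL_mul c (k := N * (i + k)) (Nat.mul_le_mul_left _ (by omega))
        (Nat.mul_le_mul_left _ (by omega))]
      have h2 := h (i + k)
      rw [show N * (i + k) + N = N * (i + (k + 1)) by ring] at h2
      calc _ ≤ L ^ (N * k) * L ^ N := mul_le_mul ih h2 (LL_nonneg _ _ _) (by positivity)
        _ = L ^ (N * (k + 1)) := by rw [← pow_add]; ring_nf
  have h4 : ∀ m n, m ≤ n → n ≤ m + N → LL c m n ≤ 4 ^ N := by
    intro m n _ hn
    refine (LL_le c hc).trans ?_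
    exact pow_le_pow_right₀ (by norm_num) (by omega)
  refine ⟨4 ^ N * 4 ^ N, by positivity, ?_⟩
  intro m n hmn
  have hLk : ∀ k, (1 : ℝ) ≤ L ^ k := fun k => one_le_pow₀ hL
  have e4 : (1 : ℝ) ≤ 4 ^ N := one_le_pow₀ (by norm_num)
  have hm1 := Nat.div_add_mod m N
  have hm2 := Nat.mod_lt m hN
  have hn1 := Nat.div_add_mod n N
  have hn2 := Nat.mod_lt n hN
  obtain ⟨a, ha⟩ : ∃ a, a = m / N + 1 := ⟨_, rfl⟩
  obtain ⟨b, hb⟩ : ∃ b, b = n / N := ⟨_, rfl⟩
  have hNa : N * a = N * (m / N) + N := by rw [ha]; ring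
  rw [← hb] at hn1
  rcases le_or_gt a b with hab | hab
  · obtain ⟨k, rfl⟩ := Nat.exists_eq_add_of_le hab
    have h5 : N * a ≤ N * (a + k) := Nat.mul_le_mul_left _ (by omega)
    rw [← LL_mul c (k := N * a) (by omega) (by omega),
      ← LL_mul c (m := N * a) (k := N * (a + k)) h5 (by omega)]
    have h6 := h4 m (N * a) (by omega) (by omega)
    have h7 := h1 a k
    have h8 := h4 (N * (a + k)) n (by omega) (by omega)
    have h9 : L ^ (N * k) ≤ L ^ (n - m) := by
      apply pow_le_pow_right₀ hL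
      have : N * (a + k) = N * a + N * k := by ring
      omega
    calc _ ≤ 4 ^ N * (L ^ (N * k) * 4 ^ N) := by
          apply mul_le_mul h6 _ (mul_nonneg (LL_nonneg _ _ _) (LL_nonneg _ _ _)) (by positivity)
          exact mul_le_mul h7 h8 (LL_nonneg _ _ _) (by positivity)
      _ ≤ 4 ^ N * (L ^ (n - m) * 4 ^ N) := by gcongr
      _ = _ := by ring
  · have h5 : n ≤ m + N := by
      have : N * (b + 1) ≤ N * a := Nat.mul_le_mul_left _ (by omega)
      have h6 : N * (b + 1) = N * b + N := by ring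
      omega
    refine (h4 m n hmn h5).trans ?_
    have := hLk (n - m)
    calc (4 : ℝ) ^ N ≤ 4 ^ N * 4 ^ N := by nlinarith
      _ ≤ 4 ^ N * 4 ^ N * L ^ (n - m) := by
        apply le_mul_of_one_le_right (by positivity) this

/-- bounded geometry bounds the derivative along the critical orbit -/
theorem deriv_le {c : ℂ} {p : ℕ} {U : Set ℂ} {C r : ℝ} (hr : 0 < r)
    (hball : ∀ n : ℕ, ball (P 2 (n * p) c) r ⊆ U)
    (hdiam : ∀ z ∈ U, ∀ z' ∈ U, ‖(fc 2 c)^[p] z - (fc 2 c)^[p] z'‖ ≤ C * r) (i : ℕ) :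
    LL c (p * i) (p * i + p) ≤ C := by
  rw [← norm_deriv_iter]
  have h1 : MapsTo ((fc 2 c)^[p]) (ball (P 2 (p * i) c) r)
      (closedBall ((fc 2 c)^[p] (P 2 (p * i) c)) (C * r)) := by
    intro z hz
    have hb := hball i
    rw [Nat.mul_comm] at hb
    rw [mem_closedBall, dist_eq_norm]
    exact hdiam z (hb hz) _ (hb (mem_ball_self hr))
  have h2 := Complex.norm_deriv_le_div_of_mapsTo_ball
    (diff_it_y 2 p c).differentiableOn h1 hr
  rwa [mul_div_assoc, div_self hr.ne', mul_one] at h2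


theorem sub : S_SUB := by
  intro c hc h L hL
  have hlog : 0 < Real.log L := Real.log_pos hL
  obtain ⟨p, ⟨U, r, hr, hball, hdiam⟩, hp⟩ := (h (Real.log L) hlog).exists_gt 0
  refine LL_of_mult hc hp hL.le fun i => ?_
  have e : Real.exp (Real.log L * p) = L ^ p := by
    rw [mul_comm, Real.exp_nat_mul, Real.exp_log (by linarith)]
  rw [← e]
  exact deriv_le hr hball hdiam i

end Pool.Agent.N106.BGSub
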